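import Pool.Agent.Helper29_C4N.Ins

/-!
# Squad C4N, module FIL: exchange step for a vertex of degree at most one
-/

set_option autoImplicit false

namespace Pool.Agent.C4N.H43

open SimpleGraph
open Pool.Agent.C4N.H29 (cut ncard_le_two)

theorem fil : FILStmt := by
  classical
  intro V _ F v y u1 u2 hF hv hvy hnadj hu hy
  obtain ⟨a, a', haa, hcut⟩ := cut hF.1 (Ne.symm hvy) hy
  have hya : F.Adj y a := by
    rcases haa with ⟨h, -⟩ | ⟨h, -⟩
    · exact (hy a).2 (Or.inl h)
    · exact (hy a).2 (Or.inr h)
  have hy' : ∀ z, F.Adj y z → z = a ∨ z = a' := by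
    intro z hz
    rcases haa with ⟨h1, h2⟩ | ⟨h1, h2⟩
    · rw [h1, h2]
      exact (hy z).1 hz
    · rw [h1, h2]
      exact ((hy z).1 hz).symm
  have hav : a ≠ v := by
    rintro rfl
    exact hnadj hya.symm
  refine ⟨a, ?_, ?_, ?_⟩
  · rcases haa with ⟨h, -⟩ | ⟨h, -⟩
    · exact Or.inl h
    · exact Or.inr h
  · have he : ((F ⊔ edge v y) \ edge y a) = (F \ edge y a) ⊔ edge v y := by
      ext u w
      simp only [sdiff_adj, sup_adj, edge_adj]
      constructor
      · rintro ⟨h1 | h1, h2⟩
        · exact Or.inl ⟨h1, h2⟩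
        · exact Or.inr h1
      · rintro (⟨h1, h2⟩ | h1)
        · exact ⟨Or.inl h1, h2⟩
        · refine ⟨Or.inr h1, ?_⟩
          rintro ⟨h2, -⟩
          rcases h1.1 with ⟨e1, e2⟩ | ⟨e1, e2⟩ <;> rcases h2 with ⟨e3, e4⟩ | ⟨e3, e4⟩
          · exact hvy (e1.symm.trans e3)
          · exact hav (e3.symm.trans e1)
          · exact hav (e4.symm.trans e2)
          · exact hvy (e2.symm.trans e4)
    rw [he]
    have hnr : ¬ (F \ edge y a).Reachable v y := fun h => hcut h.symm
    rw [isAcyclic_add_edge_iff_of_not_reachable v y hnr]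
    exact hF.1.anti sdiff_le
  · intro w
    by_cases hwv : w = v
    · subst hwv
      have h0 : ((F ⊔ edge w y) \ edge y a).neighborSet w ⊆ insert y (F.neighborSet w) := by
        intro z hz
        have h1 : (F.Adj w z ∨ (edge w y).Adj w z) ∧ ¬ (edge y a).Adj w z := hz
        simp only [edge_adj] at h1
        rcases h1.1 with h2 | h2
        · exact Or.inr h2
        · rcases h2.1 with h3 | h3
          · exact Or.inl h3.2
          · exact absurd h3.1 hvy
      refine (Set.ncard_le_ncard h0 (Set.toFinite _)).trans ((Set.ncard_insert_le _ _).trans ?_)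
      have h3 : (F.neighborSet w).ncard ≤ 1 := hv
      omega
    · by_cases hwy : w = y
      · subst hwy
        refine ncard_le_two (a := a') (b := v) ?_
        intro z hz
        have h1 : (F.Adj w z ∨ (edge v w).Adj w z) ∧ ¬ (edge w a).Adj w z := hz
        simp only [edge_adj] at h1
        obtain ⟨h2, h3⟩ := h1
        rcases h2 with h2 | h2
        · rcases hy' z h2 with h4 | h4
          · exfalso
            apply h3
            exact ⟨Or.inl ⟨trivial, h4⟩, h2.ne⟩
          · exact Or.inl h4
        · rcases h2.1 with h4 | h4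
          · exact absurd h4.1 hwv
          · exact Or.inr h4.2
      · refine le_trans (Set.ncard_le_ncard ?_ (Set.toFinite _)) (hF.2 w)
        intro z hz
        have h1 : (F.Adj w z ∨ (edge v y).Adj w z) ∧ ¬ (edge y a).Adj w z := hz
        simp only [edge_adj] at h1
        rcases h1.1 with h2 | h2
        · exact h2
        · rcases h2.1 with h4 | h4
          · exact absurd h4.1 hwv
          · exact absurd h4.1 hwy

end Pool.Agent.C4N.H43
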